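import Pool.Agent.Y873.HM.Asym

/-!
Polluted transitive closure on the Hamming graph `[n]^d`, `d ≥ 3`: full answer to Q1 in a stronger
form. The critical density is `1 / n` up to powers of the logarithm:
`c(d) / (n (log n)^2) ≤ p_c(n,d) ≤ (4 d + 6) log n / n` for all large `n`, with explicit `c(d)`.
So `γ(d) = 1` and `-log p_c(n,d) / log n = 1 + O(log log n / log n)`.

Idea of the lower bound: the witness structures of the starting file are counted for all sizes up to
a constant times `log n` (there: up to a constant size), with the bound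
`(6 (k+1) p)^(k-1)` for the probability that a set of `k+1` vertices contains `k-1` open pairs.

The definitions (`V`, `NonEdge`, `IsOpen`, `Occ`, `Saturated`, `prob`, `pc`) are in
`Pool/Agent/H500R3/Ham/Def.lean`.
-/

set_option autoImplicit false

namespace Pool.Agent.Results.MP_82e03f_pr.PolylogPrecision

open Filter Topology Pool.Agent.H500R3.Ham

/-- For every `d ≥ 3`: (1) `1 / (300 d (d+3)^2) / (n (log n)^2) ≤ p_c(n,d) ≤ (4 d + 6) log n / n` for
all large `n`; (2) with an explicit error term, `|-log p_c(n,d) / log n - 1| ≤ 3 log log n / log n`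
for all large `n`; (3) Q1 with `γ(d) = 1`: `n^(-1-ε) ≤ p_c(n,d) ≤ n^(-1+ε)` for every `ε > 0` and all
large `n`. -/
theorem result : ∀ d : ℕ, 3 ≤ d →
    (∀ᶠ n : ℕ in atTop, 1 / (300 * d * ((d : ℝ) + 3) ^ 2) / (n * Real.log n ^ 2) ≤ pc n d ∧
      pc n d ≤ (4 * d + 6) * Real.log n / n) ∧
    (∀ᶠ n : ℕ in atTop, |-Real.log (pc n d) / Real.log n - 1| ≤
      3 * Real.log (Real.log n) / Real.log n) ∧
    (∀ ε : ℝ, 0 < ε → ∀ᶠ n : ℕ in atTop,
      (n : ℝ) ^ (-1 - ε) ≤ pc n d ∧ pc n d ≤ (n : ℝ) ^ (-1 + ε)) := by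
  intro d hd
  have hd0 : (0 : ℝ) < d := by exact_mod_cast (by omega : 0 < d)
  have hlogn : Tendsto (fun n : ℕ => Real.log n) atTop atTop :=
    Real.tendsto_log_atTop.comp tendsto_natCast_atTop_atTop
  have hloglog : Tendsto (fun n : ℕ => Real.log (Real.log n)) atTop atTop :=
    Real.tendsto_log_atTop.comp hlogn
  set c : ℝ := 1 / (300 * d * ((d : ℝ) + 3) ^ 2) with hc
  have hc0 : 0 < c := by rw [hc]; positivity
  have h2 : ∀ᶠ n : ℕ in atTop, |-Real.log (pc n d) / Real.log n - 1| ≤
      3 * Real.log (Real.log n) / Real.log n := by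
    filter_upwards [Pool.Agent.Y873.HM.pc_bounds' hd, hlogn.eventually_gt_atTop 1,
      hloglog.eventually_ge_atTop (-Real.log c), hloglog.eventually_ge_atTop (Real.log (4 * d + 6)),
      hloglog.eventually_ge_atTop 0, eventually_gt_atTop 0] with n h1 hx h3 h4 h5 hn
    have hn0 : (0 : ℝ) < n := by exact_mod_cast hn
    set x : ℝ := Real.log n with hxdef
    have hx0 : 0 < x := by linarith
    have hpc0 : 0 < pc n d := lt_of_lt_of_le (by positivity) h1.1
    have hlow := Real.log_le_log (by positivity) h1.1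
    have hup := Real.log_le_log hpc0 h1.2
    have e1 : Real.log (c / (n * x ^ 2)) = Real.log c - x - 2 * Real.log x := by
      rw [Real.log_div hc0.ne' (by positivity), Real.log_mul hn0.ne' (by positivity), Real.log_pow]
      push_cast; ring
    have e2 : Real.log ((4 * d + 6) * x / n) = Real.log (4 * d + 6) + Real.log x - x := by
      rw [Real.log_div (by positivity) hn0.ne', Real.log_mul (by positivity) hx0.ne']
    rw [e1] at hlow
    rw [e2] at hup
    have e3 : -Real.log (pc n d) / x - 1 = (-Real.log (pc n d) - x) / x := by field_simp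
    rw [e3, abs_div, abs_of_pos hx0]
    apply div_le_div_of_nonneg_right _ hx0.le
    rw [abs_le]
    constructor <;> linarith
  refine ⟨Pool.Agent.Y873.HM.pc_bounds' hd, h2, ?_⟩
  intro ε hε
  have hlim : Tendsto (fun n : ℕ => 3 * Real.log (Real.log n) / Real.log n) atTop (𝓝 0) := by
    have h1 : Tendsto (fun x : ℝ => Real.log x / x) atTop (𝓝 0) := by
      have := Real.isLittleO_log_id_atTop.tendsto_div_nhds_zero
      simpa using this
    have h3 := (h1.comp hlogn).const_mul 3
    rw [mul_zero] at h3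
    refine h3.congr (fun n => ?_)
    simp only [Function.comp]
    ring
  filter_upwards [h2, hlim.eventually_lt_const hε, Pool.Agent.Y873.HM.pc_bounds' hd,
    hlogn.eventually_gt_atTop 1, eventually_gt_atTop 0] with n h3 h4 h5 hx hn
  have hn0 : (0 : ℝ) < n := by exact_mod_cast hn
  have hx0 : 0 < Real.log n := by linarith
  have hpc0 : 0 < pc n d := lt_of_lt_of_le (by positivity) h5.1
  have h6 := h3.trans h4.le
  rw [abs_le] at h6
  have h7 : 1 - ε ≤ -Real.log (pc n d) / Real.log n := by linarith [h6.1]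
  have h8 : -Real.log (pc n d) / Real.log n ≤ 1 + ε := by linarith [h6.2]
  rw [le_div_iff₀ hx0] at h7
  rw [div_le_iff₀ hx0] at h8
  constructor
  · rw [← Real.log_le_log_iff (Real.rpow_pos_of_pos hn0 _) hpc0, Real.log_rpow hn0]
    linarith
  · rw [← Real.log_le_log_iff hpc0 (Real.rpow_pos_of_pos hn0 _), Real.log_rpow hn0]
    linarith

end Pool.Agent.Results.MP_82e03f_pr.PolylogPrecision
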